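import Pool.Agent.H34.GU.Targets1

/-!
# Board gu (MP_52e316_nt), row D4N: the fourth moment of the sums of the eigenvalues is bounded by the
energy
-/

set_option autoImplicit false

namespace Pool.Agent.H38.GU

open MeasureTheory Pool.Agent.H34.GM Pool.Agent.H34.GZ Pool.Agent.H34.GU

private lemma dn_twice {m N : ℕ} (Φ : Mat m → ℂ) (y : ℝ) {D : Set (V m)}
    (hD : MeasurableSet D) (F : Mat m → VN m N → ℂ) (c : ℂ)
    (hdm : ∀ z ∈ D, (mt z).det ≠ 0)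
    (h : ∀ (g : Mat m) (x : VN m N), g.det ≠ 0 → opCu N Φ y D F g x = c * F g x)
    (g : Mat m) (x : VN m N) (hg : g.det ≠ 0) :
    opCu N Φ y D (opCu N Φ y D F) g x = c * (c * F g x) := by
  rw [← h g x hg]
  unfold opCu
  rw [← integral_const_mul]
  apply setIntegral_congr_fun hD
  intro z hz
  simp only
  rw [← tsum_mul_left]
  apply tsum_congr
  intro α
  by_cases hc : y / 2 < (α.det.natAbs : ℝ) ∧ (α.det.natAbs : ℝ) ≤ y
  · rw [if_pos hc, if_pos hc]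
    have h1 := h (mt z) (ac N α x) (hdm z hz)
    unfold opCu at h1
    rw [h1]
    ring
  · rw [if_neg hc, if_neg hc, mul_zero]

private lemma dn_norm {m : ℕ} {R : Type} [Fintype R] {ι : Type} [DecidableEq ι] {D : Set (V m)}
    {F : ι → Mat m → R → ℂ} (hO : Orthn D F) (i : ι) :
    ∑ x : R, ∫⁻ z in D, ENNReal.ofReal (‖F i (mt z) x‖ ^ 2) ∂(hm m) = 1 := by
  have hI : ∀ x, IntegrableOn (fun z : V m => ‖F i (mt z) x‖ ^ 2) D (hm m) := by
    intro x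
    have h1 := (hO.1 i i x).norm
    refine h1.congr (Filter.Eventually.of_forall ?_)
    intro z
    simp only [norm_mul, RCLike.norm_conj]
    ring
  have h1 : ∀ x, ∫⁻ z in D, ENNReal.ofReal (‖F i (mt z) x‖ ^ 2) ∂(hm m) =
      ENNReal.ofReal (∫ z in D, ‖F i (mt z) x‖ ^ 2 ∂(hm m)) := by
    intro x
    rw [ofReal_integral_eq_lintegral_ofReal (hI x)
      (Filter.Eventually.of_forall fun z => by positivity)]
  rw [Finset.sum_congr rfl fun x _ => h1 x, ← ENNReal.ofReal_sum_of_nonneg]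
  · have h2 := hO.2 i i
    rw [if_pos rfl] at h2
    have h3 : ∑ x : R, ∫ z in D, F i (mt z) x * (starRingEnd ℂ) (F i (mt z) x) ∂(hm m) =
        ((∑ x : R, ∫ z in D, ‖F i (mt z) x‖ ^ 2 ∂(hm m) : ℝ) : ℂ) := by
      rw [Complex.ofReal_sum]
      apply Finset.sum_congr rfl
      intro x _
      rw [← integral_complex_ofReal]
      apply integral_congr_ae
      refine Filter.Eventually.of_forall ?_
      intro z
      simp only [RCLike.mul_conj]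
      norm_cast
    rw [h3] at h2
    have h4 : (∑ x : R, ∫ z in D, ‖F i (mt z) x‖ ^ 2 ∂(hm m) : ℝ) = 1 := by
      exact_mod_cast h2
    rw [h4, ENNReal.ofReal_one]
  · intro x _
    exact integral_nonneg fun z => by positivity

theorem pf_D4N : T_HSU → T_OCU → T_TLB → T_MSU → T_DYM → T_BMP → T_D4N := by
  intro hHSU hOCU hTLB hMSU hDYM hBMP m χ hm1 hχ
  obtain ⟨cT, c1, hcT, hc1, hT⟩ := hTLB m χ hm1 hχ
  obtain ⟨cM, CM, AM, hcM, hCM, hM⟩ := hMSU m χ hm1 hχ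
  have hc4 : (0 : ℝ) < 2 * (c1 ^ 4)⁻¹ := by positivity
  refine ⟨min cT cM, CM + 2 * (c1 ^ 4)⁻¹, AM + 4 * m ^ 2, lt_min hcT hcM, by linarith, ?_⟩
  intro N _ T D hS ι _ _ F lam mu hF hO δ hδ hδ2 hδc y Y hy hY
  have hdi : (1 : ℝ) ≤ δ⁻¹ := by
    rw [le_inv_comm₀ (by norm_num) hδ]
    linarith
  have hN0 : (0 : ℝ) ≤ N := Nat.cast_nonneg N
  have hY' : CM * N * δ⁻¹ ^ AM ≤ Y := by
    refine le_trans ?_ hY
    have e1 : δ⁻¹ ^ AM ≤ δ⁻¹ ^ (AM + 4 * m ^ 2) := pow_le_pow_right₀ hdi (by omega)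
    have e2 : CM * N ≤ (CM + 2 * (c1 ^ 4)⁻¹) * N :=
      mul_le_mul_of_nonneg_right (by linarith) hN0
    exact mul_le_mul e2 e1 (by positivity) (by positivity)
  have hmz : (m : ℝ) ≠ 0 := by positivity
  have hdm : ∀ z ∈ D, (mt z).det ≠ 0 := by
    intro z hz h0
    have h1 := (hS.dom.shell z hz).1
    unfold aN at h1
    rw [h0, abs_zero, Real.zero_rpow (one_div_ne_zero hmz)] at h1
    norm_num at h1
  have hSD : DY D Y ⊆ D := fun z hz => hz.1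
  have hSm : MeasurableSet (DY D Y) := hDYM m D hS.dom Y
  have hΦ : Tst m (bump m χ δ) := ((hBMP m χ hm1 hχ).1 δ hδ hδ2).1
  set th : ι → ℂ := fun i => th1 (bump m χ δ) (mu i) 1 with hth
  set d : ι → ℂ := fun i => DF m 1 (lam i) y with hd
  have h1 : ∀ i (g : Mat m) (x : VN m N), g.det ≠ 0 →
      opCu N (bump m χ δ) y D (F i) g x = (th i * d i) * F i g x := fun i g x hg =>
    hOCU m N T D hS (F i) (lam i) (mu i) (hF i).toEigU _ hΦ y g x hg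
  have h2 : ∀ i (g : Mat m) (x : VN m N), g.det ≠ 0 →
      opCu N (bump m χ δ) y D (opCu N (bump m χ δ) y D (F i)) g x =
        (th i * d i) * ((th i * d i) * F i g x) := fun i g x hg =>
    dn_twice (bump m χ δ) y hS.dom.meas (F i) (th i * d i) hdm (h1 i) g x hg
  have h4 := hHSU m N T D hS ι F lam mu (fun i => (hF i).toEigU) hO χ δ hχ hδ hδ2 y (DY D Y)
    hSD hSm
  have h5 : ∀ i, ENNReal.ofReal ((c1 * δ ^ (m ^ 2)) ^ 4 * ‖d i‖ ^ 4 * (1 / 2)) ≤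
      ∑ x, ∫⁻ g in DY D Y, ENNReal.ofReal (‖opCu N (bump m χ δ) y D
        (opCu N (bump m χ δ) y D (F i)) (mt g) x‖ ^ 2) ∂(hm m) := by
    intro i
    have e1 : ∑ x, ∫⁻ g in DY D Y, ENNReal.ofReal (‖opCu N (bump m χ δ) y D
        (opCu N (bump m χ δ) y D (F i)) (mt g) x‖ ^ 2) ∂(hm m) =
        ENNReal.ofReal (‖th i‖ ^ 4 * ‖d i‖ ^ 4) *
          ∑ x, ∫⁻ g in DY D Y, ENNReal.ofReal (‖F i (mt g) x‖ ^ 2) ∂(hm m) := by
      rw [Finset.mul_sum]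
      apply Finset.sum_congr rfl
      intro x _
      rw [← lintegral_const_mul' _ _ ENNReal.ofReal_ne_top]
      apply setLIntegral_congr_fun hSm
      intro g hg
      simp only
      rw [h2 i (mt g) x (hdm g (hSD hg)), ← ENNReal.ofReal_mul (by positivity)]
      congr 1
      simp only [norm_mul]
      ring
    rw [e1]
    have e2 := hM N T D hS (F i) (lam i) (mu i) (hF i) (dn_norm hO i) δ hδ hδ2
      ((hδc i).trans (min_le_right _ _)) Y hY'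
    have e3 := hT (mu i) δ hδ hδ2 (hF i).tr0 ((hδc i).trans (min_le_left _ _))
    have e4 : (c1 * δ ^ (m ^ 2)) ^ 4 * ‖d i‖ ^ 4 ≤ ‖th i‖ ^ 4 * ‖d i‖ ^ 4 :=
      mul_le_mul_of_nonneg_right (pow_le_pow_left₀ (by positivity) e3 4) (by positivity)
    calc ENNReal.ofReal ((c1 * δ ^ (m ^ 2)) ^ 4 * ‖d i‖ ^ 4 * (1 / 2))
        = ENNReal.ofReal ((c1 * δ ^ (m ^ 2)) ^ 4 * ‖d i‖ ^ 4) * (1 / 2) := by
          rw [ENNReal.ofReal_mul (by positivity)]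
          congr 1
          rw [ENNReal.ofReal_div_of_pos (by norm_num)]
          norm_num
      _ ≤ _ := mul_le_mul' (ENNReal.ofReal_le_ofReal e4) e2
  have h6 := (Finset.sum_le_sum fun i _ => h5 i).trans h4
  rw [← ENNReal.ofReal_sum_of_nonneg (fun i _ => by positivity)] at h6
  have h7 : ∑ i, (c1 * δ ^ (m ^ 2)) ^ 4 * ‖d i‖ ^ 4 * (1 / 2) =
      (c1 * δ ^ (m ^ 2)) ^ 4 / 2 * ∑ i, ‖d i‖ ^ 4 := by
    rw [Finset.mul_sum]
    exact Finset.sum_congr rfl fun i _ => by ring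
  rw [h7] at h6
  have hp : (0 : ℝ) < (c1 * δ ^ (m ^ 2)) ^ 4 / 2 := by positivity
  have hpi : ((c1 * δ ^ (m ^ 2)) ^ 4 / 2)⁻¹ = 2 * (c1 ^ 4)⁻¹ * δ⁻¹ ^ (4 * m ^ 2) := by
    rw [mul_pow, ← pow_mul, mul_comm (m ^ 2) 4, inv_div, inv_pow, div_eq_mul_inv, mul_inv]
    ring
  have h8 : ((c1 * δ ^ (m ^ 2)) ^ 4 / 2)⁻¹ ≤
      (CM + 2 * (c1 ^ 4)⁻¹) * δ⁻¹ ^ (AM + 4 * m ^ 2) := by
    rw [hpi]
    have e1 : δ⁻¹ ^ (4 * m ^ 2) ≤ δ⁻¹ ^ (AM + 4 * m ^ 2) := pow_le_pow_right₀ hdi (by omega)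
    exact mul_le_mul (by linarith) e1 (by positivity) (by linarith)
  calc ENNReal.ofReal (∑ i, ‖d i‖ ^ 4)
      = ENNReal.ofReal (((c1 * δ ^ (m ^ 2)) ^ 4 / 2)⁻¹ *
          ((c1 * δ ^ (m ^ 2)) ^ 4 / 2 * ∑ i, ‖d i‖ ^ 4)) := by
        rw [inv_mul_cancel_left₀ hp.ne']
    _ = ENNReal.ofReal (((c1 * δ ^ (m ^ 2)) ^ 4 / 2)⁻¹) *
          ENNReal.ofReal ((c1 * δ ^ (m ^ 2)) ^ 4 / 2 * ∑ i, ‖d i‖ ^ 4) :=
        ENNReal.ofReal_mul (by positivity)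
    _ ≤ _ := mul_le_mul' (ENNReal.ofReal_le_ofReal h8) h6

end Pool.Agent.H38.GU
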