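import Pool.Agent.H34.GU.Targets1

/-!
# Board gu (MP_52e316_nt), row D4U: the fourth moment of the sums of the eigenvalues
-/

set_option autoImplicit false

namespace Pool.Agent.H38.GU

open MeasureTheory Pool.Agent.H34.GM Pool.Agent.H34.GZ Pool.Agent.H34.GU

private lemma du_log {N : ℕ} {y δ C1 : ℝ} {A1 : ℕ} (hN : 2 ≤ N) (hy : 1 ≤ y) (hδ : 0 < δ)
    (hδ2 : δ ≤ 1 / 2) (hC1 : 1 ≤ C1) :
    2 ≤ C1 * N * δ⁻¹ ^ A1 ∧
    0 ≤ 1 + Real.log (y * (C1 * N * δ⁻¹ ^ A1) * N) ∧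
    1 + Real.log (y * (C1 * N * δ⁻¹ ^ A1) * N) ≤
      (3 + Real.log C1 + A1) * ((1 + Real.log (N * δ⁻¹)) * (1 + Real.log y)) := by
  have hN' : (2 : ℝ) ≤ N := by exact_mod_cast hN
  have hdi : (2 : ℝ) ≤ δ⁻¹ := by
    rw [le_inv_comm₀ (by norm_num) hδ]
    linarith
  have hdi1 : (1 : ℝ) ≤ δ⁻¹ ^ A1 := one_le_pow₀ (by linarith)
  have h1 : 2 ≤ C1 * N * δ⁻¹ ^ A1 := by
    have h2 : (1 : ℝ) * 2 ≤ C1 * N := mul_le_mul hC1 hN' (by norm_num) (by linarith)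
    calc (2 : ℝ) = 1 * 2 * 1 := by ring
      _ ≤ C1 * N * δ⁻¹ ^ A1 := mul_le_mul h2 hdi1 (by norm_num) (by linarith)
  have hy0 : y ≠ 0 := by linarith
  have hYp : 0 < C1 * N * δ⁻¹ ^ A1 := by linarith
  have hl : Real.log (y * (C1 * N * δ⁻¹ ^ A1) * N) =
      Real.log y + (Real.log C1 + Real.log N + A1 * Real.log δ⁻¹) + Real.log N := by
    rw [Real.log_mul (by positivity) (by linarith), Real.log_mul hy0 (by linarith),
      Real.log_mul (by positivity) (by positivity), Real.log_mul (by linarith) (by linarith),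
      Real.log_pow]
  have hL : Real.log (N * δ⁻¹) = Real.log N + Real.log δ⁻¹ :=
    Real.log_mul (by linarith) (by linarith)
  have l1 : 0 ≤ Real.log y := Real.log_nonneg hy
  have l2 : 0 ≤ Real.log C1 := Real.log_nonneg hC1
  have l3 : 0 ≤ Real.log N := Real.log_nonneg (by linarith)
  have l4 : 0 ≤ Real.log δ⁻¹ := Real.log_nonneg (by linarith)
  have l5 : (0 : ℝ) ≤ A1 := Nat.cast_nonneg _
  refine ⟨h1, ?_, ?_⟩
  · rw [hl]
    positivity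
  · rw [hl, hL]
    have a1 := mul_nonneg l5 l3
    have a2 := mul_nonneg l5 l4
    have a3 := mul_nonneg l1 l3
    have a4 := mul_nonneg l1 l4
    have a5 : 0 ≤ (2 + Real.log C1 + A1) *
        (Real.log y + (Real.log N + Real.log δ⁻¹) * Real.log y) := by
      positivity
    have a6 : 0 ≤ Real.log C1 * (Real.log N + Real.log δ⁻¹) := by positivity
    nlinarith [a1, a2, a3, a4, a5, a6]

theorem pf_D4U : T_D4N → T_ENU → T_D4U := by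
  intro hD4 hENU m χ hm1 hχ ε hε
  obtain ⟨c, C1, A1, hc, hC1, hD⟩ := hD4 m χ hm1 hχ
  obtain ⟨CE, KE, hCE, hE⟩ := hENU m hm1 ε hε
  have l2 : 0 ≤ Real.log C1 := Real.log_nonneg hC1
  refine ⟨c, C1 * CE * (3 + Real.log C1 + A1) ^ KE, A1, KE, hc, by positivity, ?_⟩
  intro N _ T D hS ι _ _ F lam mu hF hO δ hδ hδ2 hδc y hy
  obtain ⟨hY2, hlog0, hlog⟩ := du_log (N := N) (y := y) (δ := δ) (C1 := C1) (A1 := A1)
    hS.two_le hy hδ hδ2 hC1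
  have h1 := hD N T D hS ι F lam mu hF hO δ hδ hδ2 hδc y (C1 * N * δ⁻¹ ^ A1) hy le_rfl
  have h2 := hE N D hS.two_le hS.dom y (C1 * N * δ⁻¹ ^ A1) hy hY2
  have hN0 : (0 : ℝ) ≤ N := Nat.cast_nonneg N
  have hy0 : 0 ≤ y := by linarith
  have hpow0 : (0 : ℝ) ≤ (N : ℝ) ^ ((m : ℝ) + ε) := Real.rpow_nonneg hN0 _
  have hl0 : 0 ≤ (1 + Real.log (y * (C1 * N * δ⁻¹ ^ A1) * N)) ^ KE := pow_nonneg hlog0 _
  have h3 : ENNReal.ofReal (∑ i, ‖DF m 1 (lam i) y‖ ^ 4) ≤ ENNReal.ofReal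
      ((C1 * δ⁻¹ ^ A1) * (CE * (N : ℝ) ^ ((m : ℝ) + ε) *
        (1 + Real.log (y * (C1 * N * δ⁻¹ ^ A1) * N)) ^ KE * y ^ (2 * m) *
          (1 + y ^ 2 / N) ^ m)) := by
    rw [ENNReal.ofReal_mul (by positivity)]
    exact h1.trans (mul_le_mul' le_rfl h2)
  have hR0 : 0 ≤ (C1 * δ⁻¹ ^ A1) * (CE * (N : ℝ) ^ ((m : ℝ) + ε) *
      (1 + Real.log (y * (C1 * N * δ⁻¹ ^ A1) * N)) ^ KE * y ^ (2 * m) *
        (1 + y ^ 2 / N) ^ m) := by positivity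
  have h4 := (ENNReal.ofReal_le_ofReal_iff hR0).mp h3
  refine h4.trans ?_
  have h5 : (1 + Real.log (y * (C1 * N * δ⁻¹ ^ A1) * N)) ^ KE ≤
      ((3 + Real.log C1 + A1) * ((1 + Real.log (N * δ⁻¹)) * (1 + Real.log y))) ^ KE :=
    pow_le_pow_left₀ hlog0 hlog KE
  calc (C1 * δ⁻¹ ^ A1) * (CE * (N : ℝ) ^ ((m : ℝ) + ε) *
      (1 + Real.log (y * (C1 * N * δ⁻¹ ^ A1) * N)) ^ KE * y ^ (2 * m) * (1 + y ^ 2 / N) ^ m)
      ≤ (C1 * δ⁻¹ ^ A1) * (CE * (N : ℝ) ^ ((m : ℝ) + ε) *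
      ((3 + Real.log C1 + A1) * ((1 + Real.log (N * δ⁻¹)) * (1 + Real.log y))) ^ KE *
        y ^ (2 * m) * (1 + y ^ 2 / N) ^ m) := by
        gcongr
    _ = _ := by
        rw [mul_pow, mul_pow]
        ring

end Pool.Agent.H38.GU
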